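import Pool.Agent.SZG.StmtsM

/-!
# Squad SZG, row XUB
-/

set_option autoImplicit false

namespace Pool.Agent.SZG.H38

open Pool.Agent.THS

private theorem xub_le {K ι : Type} [Field K] [Finite ι] (v : AbsoluteValue K ℝ) (y : ι → K)
    (i : ι) : v (y i) ≤ nv v y :=
  le_ciSup (f := fun i => v (y i)) (Set.finite_range _).bddAbove i

private theorem xub_nonneg {K ι : Type} [Field K] [Finite ι] [Nonempty ι]
    (v : AbsoluteValue K ℝ) (y : ι → K) : 0 ≤ nv v y :=
  (v.nonneg _).trans (xub_le v y (Classical.arbitrary ι))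

private theorem xub_pos {K ι : Type} [Field K] [Finite ι] (v : AbsoluteValue K ℝ) (y : ι → K)
    (hy : y ≠ 0) : 0 < nv v y := by
  obtain ⟨i, hi⟩ := Function.ne_iff.1 hy
  exact lt_of_lt_of_le (v.pos hi) (xub_le v y i)

private theorem xub_mul {K ι : Type} [Field K] [Finite ι] [Nonempty ι]
    (v : AbsoluteValue K ℝ) (y z : ι → K) (h : CM v y z) :
    nv v (fun t => y t * z t) = nv v y * nv v z := by
  apply le_antisymm
  · refine ciSup_le fun t => ?_
    rw [map_mul]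
    exact mul_le_mul (xub_le v y t) (xub_le v z t) (v.nonneg _) (xub_nonneg v y)
  · obtain ⟨p, hp, hp'⟩ := h
    have := xub_le v (fun t => y t * z t) p
    rw [map_mul, hp, hp'] at this
    exact this

private theorem xub_cm {K ι : Type} [Field K] [Finite ι] [Nonempty ι]
    (v : AbsoluteValue K ℝ) (y : ι → K) : CM v y y := by
  obtain ⟨p, hp⟩ := exists_eq_ciSup_of_finite (f := fun i => v (y i))
  exact ⟨p, hp, hp⟩

/-- Row XUB. -/
theorem xub (hTEN : TenStmt) (hWXC : WxcStmt) (hTBG : TbgStmt) : XubStmt := by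
  intro K I _ _ v g E L0 c e s T x W X hQ hW hna hv2
  have h2 : (2 : K) ≠ 0 := by
    intro h
    rw [h, map_zero] at hv2
    exact zero_ne_one hv2
  obtain ⟨hW0, hXX, -, -, -, hWpm, -, -⟩ := hWXC K I v L0 c e W X hW
  have hT0 : 0 < nv v (T 0) := xub_pos v _ (hQ.T0 0)
  have hs : 0 < v s := v.pos hQ.s0
  have A0 : ∀ i, nv v (T i) ≤ nv v (T 0) * W i := by
    intro i
    have h := (hTBG K I v g E L0 c e s T x W X hQ hW h2 i).2 hna
    rw [hv2, one_pow, one_mul] at h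
    exact h
  have hW2 : ∀ i, W (2 • i) = (W i ^ 2) ^ 2 := by
    intro i
    rw [two_smul, hW.add, hXX]
    ring
  have hten := hTEN K I v g E L0 c e s T x hQ hna hv2
  have A1 : ∀ i, v s * nv v (x i) ^ 2 = nv v (T (2 • i)) * nv v (T 0) := by
    intro i
    have h := hten i i
    rw [sub_self, ← two_smul ℕ i, xub_mul v _ _ (xub_cm v (x i))] at h
    rw [sq, h]
  have A3 : v s * nv v (x 0) ^ 2 = nv v (T 0) ^ 2 := by
    rw [A1 0, smul_zero, sq]
  have A2 : ∀ i, v s * nv v (x i) ^ 2 ≤ (nv v (T 0) * W i ^ 2) ^ 2 := by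
    intro i
    rw [A1 i]
    calc nv v (T (2 • i)) * nv v (T 0) ≤ (nv v (T 0) * W (2 • i)) * nv v (T 0) :=
          mul_le_mul_of_nonneg_right (A0 _) hT0.le
      _ = (nv v (T 0) * W i ^ 2) ^ 2 := by rw [hW2]; ring
  have A4 : ∀ i, nv v (T (2 • i)) = nv v (T 0) * W (2 • i) →
      nv v (x i) = nv v (x 0) * W i ^ 2 := by
    intro i hi
    have h1 := A1 i
    rw [hi, hW2] at h1
    have h3 : v s * nv v (x i) ^ 2 = v s * (nv v (x 0) * W i ^ 2) ^ 2 := by
      rw [h1]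
      calc nv v (T 0) * (W i ^ 2) ^ 2 * nv v (T 0) = nv v (T 0) ^ 2 * (W i ^ 2) ^ 2 := by ring
        _ = v s * nv v (x 0) ^ 2 * (W i ^ 2) ^ 2 := by rw [A3]
        _ = v s * (nv v (x 0) * W i ^ 2) ^ 2 := by ring
    have h4 := mul_left_cancel₀ hs.ne' h3
    exact (pow_left_inj₀ (xub_nonneg v _)
      (mul_nonneg (xub_nonneg v _) (sq_nonneg _)) two_ne_zero).1 h4
  intro i j
  refine ⟨A0 i, A2 i, ?_, A3, A4 i, ?_⟩
  · have h1 : (v s * (nv v (x i) * nv v (x j))) ^ 2 ≤ (nv v (T 0) ^ 2 * W i ^ 2 * W j ^ 2) ^ 2 := by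
      calc (v s * (nv v (x i) * nv v (x j))) ^ 2 =
            (v s * nv v (x i) ^ 2) * (v s * nv v (x j) ^ 2) := by ring
        _ ≤ (nv v (T 0) * W i ^ 2) ^ 2 * (nv v (T 0) * W j ^ 2) ^ 2 :=
            mul_le_mul (A2 i) (A2 j) (by positivity) (by positivity)
        _ = (nv v (T 0) ^ 2 * W i ^ 2 * W j ^ 2) ^ 2 := by ring
    exact (pow_le_pow_iff_left₀
      (mul_nonneg hs.le (mul_nonneg (xub_nonneg v _) (xub_nonneg v _)))
      (by positivity) two_ne_zero).1 h1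
  · intro hi hj hcm
    have h1 := hten i j
    rw [xub_mul v _ _ hcm, A4 i hi, A4 j hj] at h1
    have h3 : nv v (T (i + j)) * nv v (T (i - j)) =
        (nv v (T 0) * W (i + j)) * (nv v (T 0) * W (i - j)) := by
      rw [h1]
      calc v s * (nv v (x 0) * W i ^ 2 * (nv v (x 0) * W j ^ 2)) =
            v s * nv v (x 0) ^ 2 * (W i ^ 2 * W j ^ 2) := by ring
        _ = nv v (T 0) ^ 2 * (W (i + j) * W (i - j)) := by rw [A3, hWpm]
        _ = _ := by ring
    refine le_antisymm (A0 _) (le_of_not_gt fun hlt => ?_)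
    have h4 : 0 < nv v (T (i - j)) := xub_pos v _ (hQ.T0 _)
    have h5 : nv v (T (i + j)) * nv v (T (i - j)) <
        (nv v (T 0) * W (i + j)) * (nv v (T 0) * W (i - j)) :=
      mul_lt_mul hlt (A0 _) h4 (mul_nonneg hT0.le (hW.pos _).le)
    exact h5.ne h3

end Pool.Agent.SZG.H38
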